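import Pool.Agent.Helper84.BD.Converse
import Pool.Agent.Helper17.Trs2.All

/-!
# MP_1609c3_nt: Benford's law for `a(n)` holds in all integer bases, except the powers of three and
the powers of at most one further integer
-/

set_option autoImplicit false

namespace Pool.Agent.Results.MP_1609c3_nt.ExceptionalBases

open Pool.Agent.Helper84.BD

theorem result : ∃ c : ℕ, 2 ≤ c ∧ ∀ b : ℕ, 2 ≤ b →
    (SigLaw b ↔ (¬ ∃ k : ℕ, b = 3 ^ k) ∧ ¬ ∃ k : ℕ, b = c ^ k) := by
  obtain ⟨c, hc2, hcE, hc⟩ := one_class Trs2.sMain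
  refine ⟨c, hc2, fun b hb => ?_⟩
  have hk0 : ∀ {t k : ℕ}, b = t ^ k → k ≠ 0 := by
    rintro t k h rfl
    rw [pow_zero] at h
    omega
  constructor
  · intro hS
    refine ⟨?_, ?_⟩
    · rintro ⟨k, hk⟩
      exact not_sigLaw_of_exc hb (hk ▸ exc_three (hk0 hk)) hS
    · rintro ⟨k, hk⟩
      exact not_sigLaw_of_exc hb (hk ▸ exc_power (hk0 hk) hcE) hS
  · rintro ⟨h3, h4⟩
    exact sigLaw_of_not_exc hb fun hE => h4 (hc b hb hE h3)

end Pool.Agent.Results.MP_1609c3_nt.ExceptionalBases
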