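import Pool.Agent.Helper84.BD.Near

/-!
# MP_1609c3_nt: all leading digit frequencies of `a(n)` in base ten exist, and they are within
`10^(-1000)` of the values of Benford's law
-/

set_option autoImplicit false

namespace Pool.Agent.Results.MP_1609c3_nt.NearBenford

open Pool.Agent.Helper84.BD

theorem result : ∀ x y : ℝ, 1 ≤ x → x ≤ y → y ≤ 10 →
    ∃ L : ℝ, HasFreq (Block 10 x y) L ∧ |L - Real.logb 10 (y / x)| < 1 / 10 ^ 1000 :=
  fun _ _ hx hxy hy => near_block hx hxy hy

end Pool.Agent.Results.MP_1609c3_nt.NearBenford
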